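import Pool.Agent.H31.DP.Targets

/-!
MD: the mean level theorem (project DP, `MP_c59857_nt`).
-/

set_option autoImplicit false

open Finset Filter Topology

namespace Pool.Agent.H70.DP

open Pool.Agent.H91.LF (lz Bdd Mean sqw)
open Pool.Agent.H24.T2 (Pset box cub)
open Pool.Agent.H31.DP

namespace MD

theorem lz_vals (n : ℤ) : lz n = -1 ∨ lz n = 0 ∨ lz n = 1 := by
  unfold lz
  by_cases h : n = 0
  · right; left; simp [h]
  · rw [if_neg h]
    unfold Pool.Agent.H24.MR.lam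
    rcases neg_one_pow_eq_or ℝ (ArithmeticFunction.cardFactors n.natAbs) with h2 | h2
    · right; right; exact_mod_cast h2
    · left; exact_mod_cast h2

theorem lz_sign (n : ℤ) : lz n = ((SignType.sign (lz n) : SignType) : ℝ) := by
  rcases lz_vals n with h | h | h <;> rw [h] <;> simp

theorem lz_abs (n : ℤ) : |lz n| ≤ 1 := by
  rcases lz_vals n with h | h | h <;> rw [h] <;> simp

theorem FF_abs {l : ℕ} (h : Fin l → ℕ) (p : ℕ) (y : ℤ) : |FF h p y| ≤ 1 := by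
  unfold FF
  rw [Finset.abs_prod]
  exact Finset.prod_le_one (fun i _ => abs_nonneg _) (fun i _ => lz_abs _)

theorem G4_abs {l : ℕ} (h : Fin l → ℕ) (p : ℕ) (ω : Fin 3 → ℤ) : |G4 h p ω| ≤ 1 := by
  unfold G4
  rw [abs_mul, abs_mul, abs_mul]
  have h1 := FF_abs h p (ω 0)
  have h2 := FF_abs h p (ω 0 + ω 2)
  have h3 := FF_abs h p (ω 1)
  have h4 := FF_abs h p (ω 1 + ω 2)
  have h5 := abs_nonneg (FF h p (ω 0))
  have h6 := abs_nonneg (FF h p (ω 0 + ω 2))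
  have h7 := abs_nonneg (FF h p (ω 1))
  have h8 := abs_nonneg (FF h p (ω 1 + ω 2))
  have h9 : |FF h p (ω 0)| * |FF h p (ω 0 + ω 2)| ≤ 1 := mul_le_one₀ h1 h6 h2
  have h10 : |FF h p (ω 1)| * |FF h p (ω 1 + ω 2)| ≤ 1 := mul_le_one₀ h3 h8 h4
  exact mul_le_one₀ h9 (mul_nonneg h7 h8) h10

/-- the pattern -/
noncomputable def pat (w : Fin 3 → ℤ) : Fin 4 → SignType :=
  ![SignType.sign (lz (w 0)), SignType.sign (lz (w 0 + w 2)), SignType.sign (lz (w 1)),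
    SignType.sign (lz (w 1 + w 2))]

theorem pat0 {w w' : Fin 3 → ℤ} (h : pat w = pat w') : lz (w 0) = lz (w' 0) := by
  have h1 := congrFun h 0
  simp only [pat, Matrix.cons_val_zero] at h1
  rw [lz_sign (w 0), h1, ← lz_sign]

theorem pat1 {w w' : Fin 3 → ℤ} (h : pat w = pat w') : lz (w 0 + w 2) = lz (w' 0 + w' 2) := by
  have h1 := congrFun h 1
  simp only [pat, Matrix.cons_val_one, Matrix.cons_val_zero] at h1
  rw [lz_sign (w 0 + w 2), h1, ← lz_sign]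

theorem pat2 {w w' : Fin 3 → ℤ} (h : pat w = pat w') : lz (w 1) = lz (w' 1) := by
  have h1 := congrFun h 2
  simp only [pat, Matrix.cons_val] at h1
  rw [lz_sign (w 1), h1, ← lz_sign]

theorem pat3 {w w' : Fin 3 → ℤ} (h : pat w = pat w') : lz (w 1 + w 2) = lz (w' 1 + w' 2) := by
  have h1 := congrFun h 3
  simp only [pat, Matrix.cons_val] at h1
  rw [lz_sign (w 1 + w 2), h1, ← lz_sign]

/-- the direction -/
def dir : Fin 3 → ℤ := ![1, 1, 0]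

theorem block {l : ℕ} (h : Fin l → ℕ) (H p m : ℕ) (hH : ∀ i, h i ≤ H) (hp : p ≤ 2 ^ (m + 1))
    (ω ω' : Fin 3 → ℤ)
    (hx : ∀ j : ℕ, j < (2 * (H + 2)) * 2 ^ m → pat (ω + (j : ℤ) • dir) = pat (ω' + (j : ℤ) • dir))
    (k : Fin 3 → ℤ) (hk : ∀ i, 0 ≤ k i ∧ k i < p) : G4 h p (ω + k) = G4 h p (ω' + k) := by
  have hb : ∀ c : ℕ, c < 2 * p → ∀ i : Fin l, c + p * h i < (2 * (H + 2)) * 2 ^ m := by
    intro c hc i
    calc c + p * h i < 2 * p + p * H := by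
          have := Nat.mul_le_mul_left p (hH i)
          omega
      _ = p * (H + 2) := by ring
      _ ≤ 2 ^ (m + 1) * (H + 2) := Nat.mul_le_mul_right _ hp
      _ = (2 * (H + 2)) * 2 ^ m := by rw [pow_succ]; ring
  have e0 : ∀ (w : Fin 3 → ℤ) (j : ℤ), (w + j • dir) 0 = w 0 + j := by
    intro w j; simp [dir]
  have e1 : ∀ (w : Fin 3 → ℤ) (j : ℤ), (w + j • dir) 1 = w 1 + j := by
    intro w j; simp [dir]
  have e2 : ∀ (w : Fin 3 → ℤ) (j : ℤ), (w + j • dir) 2 = w 2 := by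
    intro w j; simp [dir]
  have nn : ∀ z : ℤ, 0 ≤ z → ∃ c : ℕ, (c : ℤ) = z := fun z hz => ⟨z.toNat, Int.toNat_of_nonneg hz⟩
  have f1 : FF h p ((ω + k) 0) = FF h p ((ω' + k) 0) := by
    unfold FF
    refine Finset.prod_congr rfl fun i _ => ?_
    obtain ⟨c, hc⟩ := nn (k 0) (hk 0).1
    have hc2 : c < 2 * p := by have := (hk 0).2; omega
    have h1 := pat0 (hx _ (hb c hc2 i))
    rw [e0, e0] at h1
    have h2 : (ω + k) 0 + (p : ℤ) * (h i : ℤ) = ω 0 + ((c + p * h i : ℕ) : ℤ) := by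
      push_cast; rw [hc]; simp only [Pi.add_apply]; ring
    have h3 : (ω' + k) 0 + (p : ℤ) * (h i : ℤ) = ω' 0 + ((c + p * h i : ℕ) : ℤ) := by
      push_cast; rw [hc]; simp only [Pi.add_apply]; ring
    rw [h2, h3]; exact h1
  have f2 : FF h p ((ω + k) 0 + (ω + k) 2) = FF h p ((ω' + k) 0 + (ω' + k) 2) := by
    unfold FF
    refine Finset.prod_congr rfl fun i _ => ?_
    obtain ⟨c, hc⟩ := nn (k 0 + k 2) (add_nonneg (hk 0).1 (hk 2).1)
    have hc2 : c < 2 * p := by have := (hk 0).2; have := (hk 2).2; omega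
    have h1 := pat1 (hx _ (hb c hc2 i))
    rw [e0, e0, e2, e2] at h1
    have h2 : (ω + k) 0 + (ω + k) 2 + (p : ℤ) * (h i : ℤ) =
        ω 0 + ((c + p * h i : ℕ) : ℤ) + ω 2 := by
      push_cast; rw [hc]; simp only [Pi.add_apply]; ring
    have h3 : (ω' + k) 0 + (ω' + k) 2 + (p : ℤ) * (h i : ℤ) =
        ω' 0 + ((c + p * h i : ℕ) : ℤ) + ω' 2 := by
      push_cast; rw [hc]; simp only [Pi.add_apply]; ring
    rw [h2, h3]; exact h1
  have f3 : FF h p ((ω + k) 1) = FF h p ((ω' + k) 1) := by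
    unfold FF
    refine Finset.prod_congr rfl fun i _ => ?_
    obtain ⟨c, hc⟩ := nn (k 1) (hk 1).1
    have hc2 : c < 2 * p := by have := (hk 1).2; omega
    have h1 := pat2 (hx _ (hb c hc2 i))
    rw [e1, e1] at h1
    have h2 : (ω + k) 1 + (p : ℤ) * (h i : ℤ) = ω 1 + ((c + p * h i : ℕ) : ℤ) := by
      push_cast; rw [hc]; simp only [Pi.add_apply]; ring
    have h3 : (ω' + k) 1 + (p : ℤ) * (h i : ℤ) = ω' 1 + ((c + p * h i : ℕ) : ℤ) := by
      push_cast; rw [hc]; simp only [Pi.add_apply]; ring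
    rw [h2, h3]; exact h1
  have f4 : FF h p ((ω + k) 1 + (ω + k) 2) = FF h p ((ω' + k) 1 + (ω' + k) 2) := by
    unfold FF
    refine Finset.prod_congr rfl fun i _ => ?_
    obtain ⟨c, hc⟩ := nn (k 1 + k 2) (add_nonneg (hk 1).1 (hk 2).1)
    have hc2 : c < 2 * p := by have := (hk 1).2; have := (hk 2).2; omega
    have h1 := pat3 (hx _ (hb c hc2 i))
    rw [e1, e1, e2, e2] at h1
    have h2 : (ω + k) 1 + (ω + k) 2 + (p : ℤ) * (h i : ℤ) =
        ω 1 + ((c + p * h i : ℕ) : ℤ) + ω 2 := by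
      push_cast; rw [hc]; simp only [Pi.add_apply]; ring
    have h3 : (ω' + k) 1 + (ω' + k) 2 + (p : ℤ) * (h i : ℤ) =
        ω' 1 + ((c + p * h i : ℕ) : ℤ) + ω' 2 := by
      push_cast; rw [hc]; simp only [Pi.add_apply]; ring
    rw [h2, h3]; exact h1
  unfold G4
  rw [f1, f2, f3, f4]

/-- the functions in the decoupling theorem -/
noncomputable def fS {l : ℕ} (h : Fin l → ℕ) (p : ℕ) (S : Finset (Fin 3)) (ω : Fin 3 → ℤ) : ℝ :=
  (p : ℝ) ^ S.card * (ind (∀ i ∈ S, (p : ℤ) ∣ ω i) * G4 h p ω)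

theorem ind_abs (P : Prop) : |ind P| ≤ 1 := by
  unfold ind
  split_ifs <;> simp

theorem fS_bdd {l : ℕ} (h : Fin l → ℕ) (p : ℕ) (S : Finset (Fin 3)) : Bdd (fS h p S) := by
  refine ⟨(p : ℝ) ^ S.card, fun ω => ?_⟩
  unfold fS
  rw [abs_mul, abs_mul, abs_of_nonneg (by positivity : (0 : ℝ) ≤ (p : ℝ) ^ S.card)]
  have h1 : |ind (∀ i ∈ S, (p : ℤ) ∣ ω i)| * |G4 h p ω| ≤ 1 :=
    mul_le_one₀ (ind_abs _) (abs_nonneg _) (G4_abs h p ω)
  have h2 : (0 : ℝ) ≤ (p : ℝ) ^ S.card := by positivity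
  nlinarith

theorem dd_eq {l : ℕ} (h : Fin l → ℕ) (p : ℕ) (ω : Fin 3 → ℤ) : dd h p ω =
    fS h p {0, 1, 2} ω - fS h p {0, 2} ω - fS h p {1, 2} ω + fS h p {2} ω := by
  have c1 : ({0, 1, 2} : Finset (Fin 3)).card = 3 := rfl
  have c2 : ({0, 2} : Finset (Fin 3)).card = 2 := rfl
  have c3 : ({1, 2} : Finset (Fin 3)).card = 2 := rfl
  have c4 : ({2} : Finset (Fin 3)).card = 1 := rfl
  unfold dd fS bal
  rw [c1, c2, c3, c4]
  by_cases h0 : (p : ℤ) ∣ ω 0 <;> by_cases h1 : (p : ℤ) ∣ ω 1 <;> by_cases h2 : (p : ℤ) ∣ ω 2 <;>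
    simp [ind, h0, h1, h2] <;> ring

theorem E_lin {d : ℕ} (M : Mean d) (f1 f2 f3 f4 : (Fin d → ℤ) → ℝ) (b1 : Bdd f1) (b2 : Bdd f2)
    (b3 : Bdd f3) (b4 : Bdd f4) :
    M.E (fun ω => f1 ω - f2 ω - f3 ω + f4 ω) = M.E f1 - M.E f2 - M.E f3 + M.E f4 := by
  have n : ∀ f : (Fin d → ℤ) → ℝ, Bdd f → Bdd (fun ω => (-1 : ℝ) * f ω) := by
    rintro f ⟨C, hC⟩
    exact ⟨C, fun ω => by rw [abs_mul]; simpa using hC ω⟩
  have a : ∀ f g : (Fin d → ℤ) → ℝ, Bdd f → Bdd g → Bdd (fun ω => f ω + g ω) := by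
    rintro f g ⟨C, hC⟩ ⟨D, hD⟩
    exact ⟨C + D, fun ω => (abs_add_le _ _).trans (add_le_add (hC ω) (hD ω))⟩
  have e : (fun ω => f1 ω - f2 ω - f3 ω + f4 ω) =
      fun ω => (f1 ω + (-1 : ℝ) * f2 ω) + ((-1 : ℝ) * f3 ω + f4 ω) := by
    funext ω; ring
  rw [e, M.add (fun ω => f1 ω + (-1 : ℝ) * f2 ω) (fun ω => (-1 : ℝ) * f3 ω + f4 ω)
    (a _ _ b1 (n _ b2)) (a _ _ (n _ b3) b4), M.add f1 (fun ω => (-1 : ℝ) * f2 ω) b1 (n _ b2),
    M.add (fun ω => (-1 : ℝ) * f3 ω) f4 (n _ b3) b4, M.smul _ _ b2, M.smul _ _ b3]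
  ring

end MD

open MD in
theorem pf_MD (hDS : StatementDS) : StatementMD := by
  obtain ⟨c₀, hc₀, H⟩ := hDS
  refine ⟨c₀, hc₀, ?_⟩
  intro l h M θ m₀ hθ
  have hsup : ∀ i, h i ≤ Finset.univ.sup h := fun i => Finset.le_sup (Finset.mem_univ i)
  obtain ⟨m, hm, hcard, hD⟩ := H 3 M (Fin 4 → SignType) inferInstance pat dir
    (2 * (Finset.univ.sup h + 2)) (θ / 4) m₀ (by positivity) (by positivity)
  refine ⟨m, hm, hcard, ?_⟩
  have key : ∀ S : Finset (Fin 3),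
      ∑ p ∈ Pset 1 m, |M.E (fS h p S) - M.E (G4 h p)| ≤ θ / 4 * (Pset 1 m).card := by
    intro S
    refine hD S (fun p => G4 h p) (fun p _ ω => G4_abs h p ω) ?_
    intro p hp ω ω' hx k hk
    refine block h _ p m hsup ?_ ω ω' hx k hk
    unfold Pool.Agent.H24.T2.Pset at hp
    rw [Finset.mem_filter, Finset.mem_Ioc] at hp
    exact hp.1.2
  have step : ∀ p : ℕ, |M.E (dd h p)| ≤ |M.E (fS h p {0, 1, 2}) - M.E (G4 h p)| +
      |M.E (fS h p {0, 2}) - M.E (G4 h p)| + |M.E (fS h p {1, 2}) - M.E (G4 h p)| +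
      |M.E (fS h p {2}) - M.E (G4 h p)| := by
    intro p
    have e1 : dd h p = fun ω => fS h p {0, 1, 2} ω - fS h p {0, 2} ω - fS h p {1, 2} ω +
        fS h p {2} ω := by
      funext ω; exact dd_eq h p ω
    rw [e1, E_lin M _ _ _ _ (fS_bdd _ _ _) (fS_bdd _ _ _) (fS_bdd _ _ _) (fS_bdd _ _ _)]
    have e2 : M.E (fS h p {0, 1, 2}) - M.E (fS h p {0, 2}) - M.E (fS h p {1, 2}) +
        M.E (fS h p {2}) = (M.E (fS h p {0, 1, 2}) - M.E (G4 h p)) -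
        (M.E (fS h p {0, 2}) - M.E (G4 h p)) - (M.E (fS h p {1, 2}) - M.E (G4 h p)) +
        (M.E (fS h p {2}) - M.E (G4 h p)) := by ring
    rw [e2]
    refine (abs_add_le _ _).trans (add_le_add ?_ le_rfl)
    refine (abs_sub _ _).trans (add_le_add ?_ le_rfl)
    exact abs_sub _ _
  calc ∑ p ∈ Pset 1 m, |M.E (dd h p)|
      ≤ ∑ p ∈ Pset 1 m, (|M.E (fS h p {0, 1, 2}) - M.E (G4 h p)| +
      |M.E (fS h p {0, 2}) - M.E (G4 h p)| + |M.E (fS h p {1, 2}) - M.E (G4 h p)| +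
      |M.E (fS h p {2}) - M.E (G4 h p)|) := Finset.sum_le_sum fun p _ => step p
    _ ≤ θ * (Pset 1 m).card := by
        rw [Finset.sum_add_distrib, Finset.sum_add_distrib, Finset.sum_add_distrib]
        have k1 := key {0, 1, 2}
        have k2 := key {0, 2}
        have k3 := key {1, 2}
        have k4 := key {2}
        linarith

end Pool.Agent.H70.DP
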